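import Pool.Agent.Helper58.DH.Goals

/-!
# Project DH (MP_06d934_gt): packet Q_QTI, the quasi triangle inequality
-/

set_option autoImplicit false

namespace Pool.Agent.Helper41.DH

open Pool.Agent.Helper58.DH

theorem ph_symm (x y z : ℝ) : ph x y z = ph y x z := by
  unfold ph
  rw [mul_comm x y]
  congr 1
  ring

theorem PH_swap12 {n : ℕ} (x : Fin n → ℝ) (S : Finset (Fin n)) (i j k : Fin n) :
    PH x S i j k = PH x S j i k := by
  unfold PH
  rw [ph_symm (x j) (x i) (x k)]
  ring

theorem PH_swap23 {n : ℕ} (x : Fin n → ℝ) (S : Finset (Fin n)) (i j k : Fin n) :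
    PH x S i j k = PH x S i k j := by
  unfold PH
  rw [ph_symm (x k) (x j) (x i)]
  ring

/-- a term of a triple sum of nonnegative numbers -/
theorem single_le_sum3 {n : ℕ} {f : Fin n → Fin n → Fin n → ℝ} (hf : ∀ i j k, 0 ≤ f i j k)
    (i j k : Fin n) : f i j k ≤ ∑ i, ∑ j, ∑ k, f i j k :=
  calc f i j k ≤ ∑ k, f i j k :=
        Finset.single_le_sum (f := fun k => f i j k) (fun k _ => hf i j k) (Finset.mem_univ k)
    _ ≤ ∑ j, ∑ k, f i j k :=
        Finset.single_le_sum (f := fun j => ∑ k, f i j k)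
          (fun j _ => Finset.sum_nonneg fun k _ => hf i j k) (Finset.mem_univ j)
    _ ≤ ∑ i, ∑ j, ∑ k, f i j k :=
        Finset.single_le_sum (f := fun i => ∑ j, ∑ k, f i j k)
          (fun i _ => Finset.sum_nonneg fun j _ => Finset.sum_nonneg fun k _ => hf i j k)
          (Finset.mem_univ i)

/-- the bound for all triples -/
theorem PH_le (hP : Q_PHI) {n : ℕ} {A : Fin n → Fin n → Fin n → ℝ} (hA : Sym3 A) {x : Fin n → ℝ}
    (hx : ∀ e, 0 < x e) {S : Finset (Fin n)} (hS : Low x S) {C : ℝ} (hC : 1 ≤ C)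
    (hQ : ∀ i ∈ S, ∀ j ∈ S, ∀ k ∈ S, A i j k ≠ 0 → x i ≤ x j → x j ≤ x k → x k ≤ x j + C * x i) :
    ∀ i j k, A i j k ≠ 0 → PH x S i j k ≤ 2 * C ^ 2 := by
  obtain ⟨p1, p2, p3, -, -⟩ := hP
  obtain ⟨-, a1, a2⟩ := hA
  have hC2 : 0 ≤ 2 * C ^ 2 := by positivity
  -- all three in `S`
  have c3 : ∀ i j k, A i j k ≠ 0 → i ∈ S → j ∈ S → k ∈ S → x i ≤ x j → x j ≤ x k →
      PH x S i j k ≤ 2 * C ^ 2 := by
    intro i j k h hi hj hk h1 h2
    unfold PH
    rw [if_pos hi, if_pos hj, if_pos hk]
    exact p3 (x i) (x j) (x k) C (hx i) h1 h2 hC (hQ i hi j hj k hk h h1 h2)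
  have c3' : ∀ i j k, A i j k ≠ 0 → i ∈ S → j ∈ S → k ∈ S → PH x S i j k ≤ 2 * C ^ 2 := by
    intro i j k h hi hj hk
    rcases le_total (x i) (x j) with h1 | h1
    · rcases le_total (x j) (x k) with h2 | h2
      · exact c3 i j k h hi hj hk h1 h2
      · rcases le_total (x i) (x k) with h3 | h3
        · rw [PH_swap23]
          exact c3 i k j (by rwa [← a2]) hi hk hj h3 h2
        · rw [PH_swap23, PH_swap12]
          exact c3 k i j (by rwa [← a1, ← a2]) hk hi hj h3 h1
    · rcases le_total (x i) (x k) with h2 | h2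
      · rw [PH_swap12]
        exact c3 j i k (by rwa [← a1]) hj hi hk h1 h2
      · rcases le_total (x j) (x k) with h3 | h3
        · rw [PH_swap12, PH_swap23]
          exact c3 j k i (by rwa [← a2, ← a1]) hj hk hi h3 h2
        · rw [PH_swap12, PH_swap23, PH_swap12]
          exact c3 k j i (by rwa [← a1, ← a2, ← a1]) hk hj hi h3 h1
  -- two in `S`
  have c2 : ∀ i j k, i ∈ S → j ∈ S → k ∉ S → x i ≤ x j → PH x S i j k ≤ 2 * C ^ 2 := by
    intro i j k hi hj hk h1
    unfold PH
    rw [if_pos hi, if_pos hj, if_neg hk, add_zero]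
    have h2 := hS j hj k hk
    refine (p2 (x i) (x j) (x k) (hx i) h1 h2).trans (le_trans ?_ hC2)
    rw [neg_nonpos]
    exact div_nonneg (by linarith) (hx i).le
  have c2' : ∀ i j k, i ∈ S → j ∈ S → k ∉ S → PH x S i j k ≤ 2 * C ^ 2 := by
    intro i j k hi hj hk
    rcases le_total (x i) (x j) with h1 | h1
    · exact c2 i j k hi hj hk h1
    · rw [PH_swap12]
      exact c2 j i k hj hi hk h1
  -- one in `S`
  have c1 : ∀ i j k, i ∈ S → j ∉ S → k ∉ S → PH x S i j k ≤ 2 * C ^ 2 := by
    intro i j k hi hj hk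
    unfold PH
    rw [if_pos hi, if_neg hj, if_neg hk, add_zero, add_zero]
    exact (p1 (x i) (x j) (x k) (hx i) (hS i hi j hj) (hS i hi k hk)).trans hC2
  intro i j k h
  by_cases hi : i ∈ S
  · by_cases hj : j ∈ S
    · by_cases hk : k ∈ S
      · exact c3' i j k h hi hj hk
      · exact c2' i j k hi hj hk
    · by_cases hk : k ∈ S
      · rw [PH_swap23]
        exact c2' i k j hi hk hj
      · exact c1 i j k hi hj hk
  · by_cases hj : j ∈ S
    · by_cases hk : k ∈ S
      · rw [PH_swap12, PH_swap23]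
        exact c2' j k i hj hk hi
      · rw [PH_swap12]
        exact c1 j i k hj hi hk
    · by_cases hk : k ∈ S
      · rw [PH_swap23, PH_swap12]
        exact c1 k i j hk hi hj
      · unfold PH
        rw [if_neg hi, if_neg hj, if_neg hk]
        simpa using hC2

theorem q_qti (hP : Q_PHI) (hI : Q_IDN) : Q_QTI := by
  intro n d A B₀ hA hd
  have claim : ∀ N : ℕ, ∃ C : ℝ, 1 ≤ C ∧ ∀ β x : Fin n → ℝ, (∀ e, β e ≤ B₀) → Sys d β A x →
      ∀ S : Finset (Fin n), Low x S → S.card ≤ N → ∀ i ∈ S, ∀ j ∈ S, ∀ k ∈ S, A i j k ≠ 0 →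
        x i ≤ x j → x j ≤ x k → x k ≤ x j + C * x i := by
    intro N
    induction N with
    | zero =>
      refine ⟨1, le_rfl, fun β x _ _ S _ hc i hi => ?_⟩
      rw [Nat.le_zero, Finset.card_eq_zero] at hc
      rw [hc] at hi
      exact absurd hi (Finset.notMem_empty i)
    | succ N ih =>
      obtain ⟨C, hC, hN⟩ := ih
      have hA0 := hA.1
      have hD : 0 ≤ ∑ e, d e := Finset.sum_nonneg fun e _ => (hd e).le
      have hT : 0 ≤ ∑ i, ∑ j, ∑ k, A i j k :=
        Finset.sum_nonneg fun i _ => Finset.sum_nonneg fun j _ => Finset.sum_nonneg fun k _ => hA0 i j k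
      have hV : 0 ≤ ∑ i, ∑ j, ∑ k, (A i j k)⁻¹ :=
        Finset.sum_nonneg fun i _ => Finset.sum_nonneg fun j _ => Finset.sum_nonneg fun k _ =>
          inv_nonneg.2 (hA0 i j k)
      have hG : 0 ≤ 6 * (∑ e, d e) * |B₀| + 2 * C ^ 2 * ∑ i, ∑ j, ∑ k, A i j k := by positivity
      set G : ℝ := 6 * (∑ e, d e) * |B₀| + 2 * C ^ 2 * ∑ i, ∑ j, ∑ k, A i j k with hGdef
      refine ⟨C + G * ∑ i, ∑ j, ∑ k, (A i j k)⁻¹, by nlinarith, ?_⟩
      intro β x hβ hs S hS hc i hi j hj k hk hijk h1 h2
      have hx := hs.1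
      have hC' : C ≤ C + G * ∑ i, ∑ j, ∑ k, (A i j k)⁻¹ := by nlinarith
      have hCx : 0 ≤ (C + G * ∑ i, ∑ j, ∑ k, (A i j k)⁻¹) * x i :=
        mul_nonneg (by linarith) (hx i).le
      obtain ⟨m, hm, hmax⟩ := Finset.exists_max_image S x ⟨i, hi⟩
      have hS' : Low x (S.erase m) := by
        intro e he f hf
        have he1 := Finset.mem_of_mem_erase he
        by_cases hfm : f = m
        · rw [hfm]
          exact hmax e he1
        · exact hS e he1 f fun h => hf (Finset.mem_erase.2 ⟨hfm, h⟩)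
      have hc' : (S.erase m).card ≤ N := by
        rw [Finset.card_erase_of_mem hm]
        omega
      have hQ := hN β x hβ hs (S.erase m) hS' hc'
      by_cases him : i = m
      · have := hmax k hk
        rw [← him] at this
        linarith
      by_cases hjm : j = m
      · have := hmax k hk
        rw [← hjm] at this
        linarith
      have hi' : i ∈ S.erase m := Finset.mem_erase.2 ⟨him, hi⟩
      have hj' : j ∈ S.erase m := Finset.mem_erase.2 ⟨hjm, hj⟩
      by_cases hkm : k = m
      · -- the main case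
        subst hkm
        have hk' : k ∉ S.erase k := Finset.notMem_erase k S
        have hId := hI n d β A x hA hs (S.erase k)
        have hb := PH_le hP hA hx hS' hC hQ
        have hAp : 0 < A i j k := lt_of_le_of_ne (hA0 i j k) (Ne.symm hijk)
        -- the special term
        have hsp : PH x (S.erase k) i j k ≤ -((x k - x j) / x i) := by
          unfold PH
          rw [if_pos hi', if_pos hj', if_neg hk', add_zero]
          exact hP.2.1 (x i) (x j) (x k) (hx i) h1 h2
        have hnn : ∀ i' j' k', 0 ≤ A i' j' k' * (2 * C ^ 2) - A i' j' k' * PH x (S.erase k) i' j' k' := by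
          intro i' j' k'
          by_cases h0 : A i' j' k' = 0
          · rw [h0]
            simp
          · have := mul_le_mul_of_nonneg_left (hb i' j' k' h0) (hA0 i' j' k')
            linarith
        have hsum := single_le_sum3 hnn i j k
        have hsum2 : ∑ i', ∑ j', ∑ k', (A i' j' k' * (2 * C ^ 2) - A i' j' k' * PH x (S.erase k) i' j' k') =
            (2 * C ^ 2) * ∑ i', ∑ j', ∑ k', A i' j' k' -
              ∑ i', ∑ j', ∑ k', A i' j' k' * PH x (S.erase k) i' j' k' := by
          simp only [Finset.sum_sub_distrib, ← Finset.sum_mul]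
          ring
        rw [hsum2] at hsum
        have h3 : A i j k * PH x (S.erase k) i j k ≤ A i j k * -((x k - x j) / x i) :=
          mul_le_mul_of_nonneg_left hsp hAp.le
        have h4 : 0 ≤ A i j k * (2 * C ^ 2) := by positivity
        -- the two sums of the identity
        have h5 : 0 ≤ ∑ e ∈ S.erase k, d e * x e :=
          Finset.sum_nonneg fun e _ => mul_nonneg (hd e).le (hx e).le
        have h6 : ∑ e ∈ S.erase k, d e * β e ≤ (∑ e, d e) * |B₀| := by
          calc ∑ e ∈ S.erase k, d e * β e ≤ ∑ e ∈ S.erase k, d e * |B₀| :=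
                Finset.sum_le_sum fun e _ =>
                  mul_le_mul_of_nonneg_left ((hβ e).trans (le_abs_self B₀)) (hd e).le
            _ ≤ ∑ e, d e * |B₀| :=
                Finset.sum_le_sum_of_subset_of_nonneg (Finset.subset_univ _) fun e _ _ =>
                  mul_nonneg (hd e).le (abs_nonneg B₀)
            _ = (∑ e, d e) * |B₀| := by rw [Finset.sum_mul]
        have h7 : A i j k * ((x k - x j) / x i) ≤ G := by
          rw [hGdef]
          rw [hId] at h5
          linarith
        have h8 : (x k - x j) / x i ≤ G * (A i j k)⁻¹ := by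
          rw [← div_eq_mul_inv, le_div_iff₀ hAp]
          linarith
        have h9 : (A i j k)⁻¹ ≤ ∑ i, ∑ j, ∑ k, (A i j k)⁻¹ :=
          single_le_sum3 (f := fun i j k => (A i j k)⁻¹) (fun i j k => inv_nonneg.2 (hA0 i j k)) i j k
        have h10 : (x k - x j) / x i ≤ G * ∑ i, ∑ j, ∑ k, (A i j k)⁻¹ :=
          h8.trans (mul_le_mul_of_nonneg_left h9 hG)
        rw [div_le_iff₀ (hx i)] at h10
        have h11 : 0 ≤ C * x i := mul_nonneg (by linarith) (hx i).le
        rw [add_mul]
        linarith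
      · have hk' : k ∈ S.erase m := Finset.mem_erase.2 ⟨hkm, hk⟩
        have h3 := hQ i hi' j hj' k hk' hijk h1 h2
        have h4 : C * x i ≤ (C + G * ∑ i, ∑ j, ∑ k, (A i j k)⁻¹) * x i :=
          mul_le_mul_of_nonneg_right hC' (hx i).le
        linarith
  obtain ⟨C, hC, h⟩ := claim n
  refine ⟨C, hC, fun β x hβ hs i j k hijk h1 h2 => ?_⟩
  exact h β x hβ hs Finset.univ (fun _ _ j hj => absurd (Finset.mem_univ j) hj) (by simp) i
    (Finset.mem_univ i) j (Finset.mem_univ j) k (Finset.mem_univ k) hijk h1 h2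

end Pool.Agent.Helper41.DH
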